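import Pool.Agent.TH490.NRC.Final

/-!
# The number of normal rational curves through an arc (second question)

Let `q > k ≥ 1`. Every `n`-arc `K` of `PG(k-1,q)` which lies on a normal rational curve at all lies on
exactly

* `(q-1)^(k-2) (q-1)(q-2)⋯(q-k+2)` of them if `n = k`,
* `(q-2)(q-3)⋯(q-k+1)` of them if `n = k+1`,
* one if `n ≥ k+2`,

and for `n ≤ k+2` every `n`-arc does. Proof: in coordinates in which `K` contains the coordinate
points, the map `(x_i) ↦ (1/x_i)` turns the normal rational curves through the coordinate points into
the lines of `PG(k-1,q)` all of whose Plücker coordinates are nonzero (`mem_iff`); the curve determines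
this line because `q > k` (`norm_unique`), further points of `K` become points of the line, and the
lines are counted by a normal form (`card_norm`, `card_norm1`).
-/

set_option autoImplicit false

namespace Pool.Agent.Results.MP_8a9ebc_co.CurvesThroughArcs

open scoped LinearAlgebra.Projectivization
open Pool.Agent.TH490.NRC

/-- For `q > k ≥ 1`: the number of normal rational curves of `PG(k-1,q)` that contain a given
`n`-arc `K`, where `n ≤ k + 2`, or `n` is arbitrary and `K` lies on some normal rational curve. -/
theorem result {F : Type*} [Field F] [Finite F] (k : ℕ) (hk : 1 ≤ k) (hq : k < Nat.card F) (n : ℕ)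
    (K : Set (ℙ F (Fin k → F))) (hK : IsArc n K) (h : n ≤ k + 2 ∨ ∃ C, IsNRC C ∧ K ⊆ C) :
    Nat.card {C : Set (ℙ F (Fin k → F)) // IsNRC C ∧ K ⊆ C} =
      if n = k then (Nat.card F - 1) ^ (k - 2) * (Nat.card F - 1).descFactorial (k - 2)
      else if n = k + 1 then (Nat.card F - 2).descFactorial (k - 2)
      else 1 :=
  count_main k hk hq n K hK h

end Pool.Agent.Results.MP_8a9ebc_co.CurvesThroughArcs
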